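import Pool.Agent.Y748.SR.Stm7

/-!
# Montgomery's theorem for the normalised sequence (`t_MG`)
-/

set_option autoImplicit false
open Finset Filter Topology MeasureTheory

namespace Pool.Agent.Y141.SR
open Pool.Agent.Y748 Pool.Agent.Y748.SR

theorem rr_cont (R : ℝ → ℝ) (hR : Continuous R) : Continuous (rr R) := by
  unfold rr
  exact intervalIntegral.continuous_parametric_intervalIntegral_of_continuous'
    (f := fun x α => R α * Real.cos (2 * Real.pi * x * α)) (by fun_prop) _ _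

theorem cut_cont (K : ℕ) : Continuous (cut K) := by
  unfold cut
  fun_prop

theorem cut_nonneg (K : ℕ) (v : ℝ) : 0 ≤ cut K v := le_max_left _ _

theorem cut_le (K : ℕ) (v : ℝ) : cut K v ≤ 1 := max_le zero_le_one (min_le_left _ _)

theorem cut_one (K : ℕ) {v : ℝ} (hv : |v| ≤ K) : cut K v = 1 := by
  unfold cut
  rw [min_eq_left (by linarith), max_eq_right zero_le_one]

theorem cut_zero (K : ℕ) {v : ℝ} (hv : (K : ℝ) + 1 ≤ |v|) : cut K v = 0 := by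
  unfold cut
  rw [min_eq_right (by linarith), max_eq_left (by linarith)]

theorem mg_part (hBLK : S_BLK2) (hDYA : S_DYA) (γ : ℕ → ℝ) (NZ : ℝ → ℕ) (hB : Blk γ NZ)
    (R : ℝ → ℝ) (κ : ℝ) (h0 : 0 < κ) (h1 : κ < 1) (hR : TFn R κ) : ∃ C : ℝ, 0 ≤ C ∧
    ∀ K : ℕ, 1 ≤ K → ∀ ε : ℝ, 0 < ε → ∀ᶠ N : ℕ in atTop,
      |(1 / N : ℝ) * psum (fun n => nrm (γ n)) N (fun v => rr R v * cut K v) -
        (mt R - rr R 0)| ≤ C / K + ε := by
  obtain ⟨C, hC0, hC⟩ := hBLK γ NZ hB R κ h0 h1 hR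
  refine ⟨C, hC0, fun K hK ε hε => ?_⟩
  obtain ⟨T0, hT0⟩ := hC K hK (ε / 2) (half_pos hε)
  obtain ⟨D, hD⟩ := hR.decay
  have hD0 : 0 ≤ D := by
    have h := (abs_nonneg _).trans (hD 0)
    have h' : D / (1 + (0 : ℝ) ^ 2) = D := by norm_num
    rwa [h'] at h
  have hb : ∀ v, |rr R v * cut K v| ≤ D := by
    intro v
    rw [abs_mul, abs_of_nonneg (cut_nonneg K v)]
    have h2 : |rr R v| ≤ D := (hD v).trans (div_le_self hD0 (by nlinarith [sq_nonneg v]))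
    calc |rr R v| * cut K v ≤ D * 1 := mul_le_mul h2 (cut_le K v) (cut_nonneg K v) hD0
      _ = D := mul_one D
  have key := hDYA γ NZ hB (fun v => rr R v * cut K v) (mt R) (ε / 2 + C / K) ((K : ℝ) + 1) D
    (by positivity) ((rr_cont R hR.cont).mul (cut_cont K))
    (fun v hv => by
      show rr R v * cut K v = 0
      rw [cut_zero K hv, mul_zero]) hb ⟨T0, hT0⟩ (ε / 2) (half_pos hε)
  filter_upwards [key] with N hN
  have e0 : rr R 0 * cut K 0 = rr R 0 := by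
    rw [cut_one K (by rw [abs_zero]; positivity), mul_one]
  have hN' : |(1 / N : ℝ) * psum (fun n => nrm (γ n)) N (fun v => rr R v * cut K v) -
      (mt R - rr R 0 * cut K 0)| ≤ ε / 2 + C / K + ε / 2 := hN
  rw [e0] at hN'
  linarith

theorem fin_part (u : ℕ → ℝ) (hu : Sq u) : ∃ S : ℕ → Finset ℕ, (∀ N n, n ∈ S N ↔ 1 ≤ n ∧ u n ≤ N) ∧
    ∀ᶠ N : ℕ in atTop, ((S N).card : ℝ) ≤ 2 * N := by
  have h1 : ∀ᶠ n : ℕ in atTop, (1 / 2 : ℝ) < u n / n :=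
    hu.lim.eventually (lt_mem_nhds (by norm_num))
  obtain ⟨n0, hn0⟩ := eventually_atTop.1 h1
  have h2 : ∀ n N : ℕ, n0 ≤ n → 1 ≤ n → u n ≤ N → n ≤ 2 * N := by
    intro n N hn hn1 hle
    have h3 := hn0 n hn
    have hn' : (0 : ℝ) < n := by exact_mod_cast hn1
    rw [lt_div_iff₀ hn'] at h3
    have h4 : (n : ℝ) ≤ ((2 * N : ℕ) : ℝ) := by push_cast; linarith
    exact_mod_cast h4
  classical
  have hmem : ∀ N n, n ∈ (Finset.Icc 1 (max n0 (2 * N))).filter (fun n => u n ≤ N) ↔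
      1 ≤ n ∧ u n ≤ N := by
    intro N n
    rw [Finset.mem_filter, Finset.mem_Icc]
    constructor
    · rintro ⟨⟨h3, _⟩, h4⟩
      exact ⟨h3, h4⟩
    · rintro ⟨h3, h4⟩
      refine ⟨⟨h3, ?_⟩, h4⟩
      rcases le_total n0 n with h5 | h5
      · exact (h2 n N h5 h3 h4).trans (le_max_right _ _)
      · exact h5.trans (le_max_left _ _)
  refine ⟨fun N => (Finset.Icc 1 (max n0 (2 * N))).filter (fun n => u n ≤ N), hmem, ?_⟩
  filter_upwards [eventually_ge_atTop n0] with N hN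
  have h3 : ((Finset.Icc 1 (max n0 (2 * N))).filter (fun n => u n ≤ N)).card ≤ 2 * N := by
    refine (Finset.card_filter_le _ _).trans ?_
    rw [Nat.card_Icc, max_eq_right (by omega)]
    omega
  exact_mod_cast h3

theorem sum_pairs (S : Finset ℕ) (g : ℕ → ℕ → ℝ) :
    ∑ n ∈ S, ∑ m ∈ S, g n m = ∑ n ∈ S, g n n + ∑ p ∈ (S ×ˢ S).filter (fun p => p.1 ≠ p.2),
      g p.1 p.2 := by
  classical
  rw [← Finset.sum_product' S S g, ← Finset.sum_filter_add_sum_filter_not (S ×ˢ S)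
    (fun p => p.1 = p.2)]
  congr 1
  refine Finset.sum_nbij' (fun p => p.1) (fun n => (n, n)) ?_ ?_ ?_ ?_ ?_
  · rintro ⟨a, b⟩ h
    rw [Finset.mem_filter, Finset.mem_product] at h
    exact h.1.1
  · intro n hn
    rw [Finset.mem_filter, Finset.mem_product]
    exact ⟨⟨hn, hn⟩, rfl⟩
  · rintro ⟨a, b⟩ h
    rw [Finset.mem_filter] at h
    have : a = b := h.2
    simp [this]
  · intro n _
    rfl
  · rintro ⟨a, b⟩ h
    rw [Finset.mem_filter] at h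
    have : a = b := h.2
    simp [this]

theorem psum_eq (u : ℕ → ℝ) (N : ℕ) (f : ℝ → ℝ) (S : Finset ℕ) (hS : ∀ n, n ∈ S ↔ 1 ≤ n ∧ u n ≤ N) :
    psum u N f = ∑ p ∈ (S ×ˢ S).filter (fun p => p.1 ≠ p.2), f (u p.1 - u p.2) := by
  unfold psum
  have h : {p : ℕ × ℕ | 1 ≤ p.1 ∧ 1 ≤ p.2 ∧ p.1 ≠ p.2 ∧ u p.1 ≤ N ∧ u p.2 ≤ N} =
      ↑((S ×ˢ S).filter (fun p => p.1 ≠ p.2)) := by
    ext ⟨a, b⟩
    rw [Finset.mem_coe, Finset.mem_filter, Finset.mem_product, hS, hS]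
    simp only [Set.mem_setOf_eq]
    tauto
  rw [h]
  exact finsum_mem_coe_finset (fun p : ℕ × ℕ => f (u p.1 - u p.2)) _

theorem card_eq (u : ℕ → ℝ) (N K : ℕ) (S : Finset ℕ) (hS : ∀ n, n ∈ S ↔ 1 ≤ n ∧ u n ≤ N) :
    ({p : ℕ × ℕ | 1 ≤ p.1 ∧ 1 ≤ p.2 ∧ u p.1 ≤ N ∧ u p.2 ≤ N ∧ |u p.1 - u p.2| ≤ K}.ncard : ℝ) =
      ∑ n ∈ S, ∑ m ∈ S, (if |u n - u m| ≤ (K : ℝ) then 1 else 0 : ℝ) := by
  classical
  have h : {p : ℕ × ℕ | 1 ≤ p.1 ∧ 1 ≤ p.2 ∧ u p.1 ≤ N ∧ u p.2 ≤ N ∧ |u p.1 - u p.2| ≤ K} =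
      ↑((S ×ˢ S).filter (fun p => |u p.1 - u p.2| ≤ (K : ℝ))) := by
    ext ⟨a, b⟩
    rw [Finset.mem_coe, Finset.mem_filter, Finset.mem_product, hS, hS]
    simp only [Set.mem_setOf_eq]
    tauto
  rw [h, Set.ncard_coe_finset, ← Finset.sum_product' S S
    (fun n m => (if |u n - u m| ≤ (K : ℝ) then 1 else 0 : ℝ)), Finset.sum_boole]

theorem t_MG (hTAIL : S_TAIL) (hTENT : S_TENT) (hBLK : S_BLK2) (hDYA : S_DYA) : S_MG := by
  intro γ NZ hB
  refine ⟨?_, fun R κ h0 h1 hR => mg_part hBLK hDYA γ NZ hB R κ h0 h1 hR⟩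
  obtain ⟨R, κ, h0, h1, hR, hR0, hR1⟩ := hTENT
  obtain ⟨C, hC0, hC⟩ := mg_part hBLK hDYA γ NZ hB R κ h0 h1 hR
  obtain ⟨S, hS, hcard⟩ := fin_part (fun n => nrm (γ n)) hB.sq
  intro K
  set D : ℝ := C + 1 + |mt R - rr R 0| with hD
  have hmax : (1 : ℕ) ≤ max K 1 := le_max_right _ _
  refine ⟨4 * (max K 1 : ℕ) * (2 + 10 * D), ?_⟩
  filter_upwards [hC 1 le_rfl 1 one_pos, hcard, eventually_ge_atTop 1] with N hN hNc hN1
  have hNpos : (0 : ℝ) < N := by exact_mod_cast hN1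
  set u : ℕ → ℝ := fun n => nrm (γ n) with hu
  have hS' := hS N
  -- the pair sum
  have hps : psum u N (fun v => rr R v * cut 1 v) ≤ D * N := by
    have h2 := (abs_le.1 hN).2
    have h3 : (1 / N : ℝ) * psum u N (fun v => rr R v * cut 1 v) ≤ D := by
      have h4 := le_abs_self (mt R - rr R 0)
      rw [hD]
      norm_num at h2
      norm_num
      linarith
    rw [one_div, inv_mul_le_iff₀ hNpos] at h3
    linarith
  rw [psum_eq u N _ (S N) hS'] at hps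
  -- close pairs
  have hclose : ∑ n ∈ S N, ∑ m ∈ S N, (if |u n - u m| ≤ 1 then 1 else 0 : ℝ) ≤
      (2 + 10 * D) * N := by
    rw [sum_pairs (S N) (fun n m => (if |u n - u m| ≤ 1 then 1 else 0 : ℝ))]
    have h5 : ∑ n ∈ S N, (if |u n - u n| ≤ 1 then 1 else 0 : ℝ) ≤ 2 * N := by
      refine le_trans (Finset.sum_le_card_nsmul _ _ 1 fun n _ => ?_) ?_
      · split_ifs <;> norm_num
      · rw [nsmul_eq_mul, mul_one]
        exact hNc
    have h6 : ∑ p ∈ (S N ×ˢ S N).filter (fun p => p.1 ≠ p.2),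
        (if |u p.1 - u p.2| ≤ 1 then 1 else 0 : ℝ) ≤
        10 * ∑ p ∈ (S N ×ˢ S N).filter (fun p => p.1 ≠ p.2),
          rr R (u p.1 - u p.2) * cut 1 (u p.1 - u p.2) := by
      rw [Finset.mul_sum]
      refine Finset.sum_le_sum fun p _ => ?_
      split_ifs with h7
      · rw [cut_one 1 (by rw [Nat.cast_one]; exact h7), mul_one]
        have := hR1 _ h7
        linarith
      · have := mul_nonneg (hR0 (u p.1 - u p.2)) (cut_nonneg 1 (u p.1 - u p.2))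
        linarith
    have h8 : (2 + 10 * D) * N = 2 * N + 10 * (D * N) := by ring
    rw [h8]
    exact add_le_add h5 (h6.trans (mul_le_mul_of_nonneg_left hps (by norm_num)))
  have hT := (hTAIL (S N) u (max K 1) hmax).2
  have hfin : ({p : ℕ × ℕ | 1 ≤ p.1 ∧ 1 ≤ p.2 ∧ u p.1 ≤ N ∧ u p.2 ≤ N ∧
      |u p.1 - u p.2| ≤ K}.ncard : ℝ) ≤ ∑ n ∈ S N, ∑ m ∈ S N,
        (if |u n - u m| ≤ ((max K 1 : ℕ) : ℝ) then 1 else 0 : ℝ) := by
    rw [card_eq u N K (S N) hS']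
    refine Finset.sum_le_sum fun n _ => Finset.sum_le_sum fun m _ => ?_
    have h9 : (K : ℝ) ≤ ((max K 1 : ℕ) : ℝ) := by exact_mod_cast le_max_left K 1
    split_ifs with ha hb hb
    · exact le_rfl
    · exact absurd (ha.trans h9) hb
    · exact zero_le_one
    · exact le_rfl
  calc _ ≤ _ := hfin
    _ ≤ _ := hT
    _ ≤ 4 * ((max K 1 : ℕ) : ℝ) * ((2 + 10 * D) * N) :=
        mul_le_mul_of_nonneg_left hclose (by positivity)
    _ = _ := by ring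

end Pool.Agent.Y141.SR
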